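import Pool.Agent.Lib.MP_3da8ac_lc.Main

/-!
# The difficulty of critical two-dimensional bootstrap models is not in NP

The definitions (`IsFamily`, `Critical`, `difficulty`, ...) are in
`Pool.Agent.Lib.MP_3da8ac_lc.Defs`; the class `NP` and the encoding `bitEncode` are those of the
Prelude.
-/

set_option autoImplicit false

open Pool.Agent.Lib.MP_3da8ac_lc

namespace Pool.Agent.Results.MP_3da8ac_lc.NotInNP

/-- No problem in NP answers the question `α(𝒰) ≤ k` correctly for all critical update
families `𝒰` and all `k`. -/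
theorem result :
    ¬ ∃ L ∈ N68a2faeb.NP, ∀ (F : List (List (ℤ × ℤ))) (k : ℕ), IsFamily F → Critical F →
      (L (N487b59b3.bitEncode (F, k)) = true ↔ difficulty F ≤ (k : ℕ∞)) :=
  fun ⟨L, hL, h⟩ => main L h hL

end Pool.Agent.Results.MP_3da8ac_lc.NotInNP
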